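import Mathlib

/-!
# Full colourings of hypercubes

A colouring of the cube `{0,1}^ι` is full if from every vertex every colour other than its own
can be reached by flipping one coordinate.
-/

set_option autoImplicit false

namespace Pool.Agent.H269C

open Finset

/-- flip one coordinate -/
def flip {ι : Type} [DecidableEq ι] (x : ι → Bool) (i : ι) : ι → Bool :=
  Function.update x i (!x i)

theorem flip_self {ι : Type} [DecidableEq ι] (x : ι → Bool) (i : ι) : flip x i i = !x i := by
  simp [flip]

theorem flip_ne {ι : Type} [DecidableEq ι] (x : ι → Bool) {i j : ι} (h : j ≠ i) :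
    flip x i j = x j := by
  simp [flip, Function.update_of_ne h]

theorem flip_flip {ι : Type} [DecidableEq ι] (x : ι → Bool) (i : ι) :
    flip (flip x i) i = x := by
  funext j
  by_cases h : j = i
  · subst h; simp [flip_self]
  · rw [flip_ne _ h, flip_ne _ h]

/-- a full colouring exists -/
def FullOn (ι : Type) [DecidableEq ι] (X : Type) : Prop :=
  ∃ D : (ι → Bool) → X, ∀ x c, D x ≠ c → ∃ i, D (flip x i) = c

theorem FullOn.mono {ι κ : Type} [DecidableEq ι] [DecidableEq κ] {X : Type} (h : FullOn ι X)
    (f : ι → κ) (hf : Function.Injective f) : FullOn κ X := by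
  obtain ⟨D, hD⟩ := h
  refine ⟨fun x => D (fun i => x (f i)), fun x c hc => ?_⟩
  obtain ⟨i, hi⟩ := hD _ c hc
  refine ⟨f i, ?_⟩
  have : (fun j => flip x (f i) (f j)) = flip (fun j => x (f j)) i := by
    funext j
    by_cases hj : j = i
    · subst hj; rw [flip_self, flip_self]
    · rw [flip_ne _ hj, flip_ne _ (fun h => hj (hf h))]
  simp only [this]
  exact hi

theorem FullOn.surj {ι : Type} [DecidableEq ι] {X Y : Type} (h : FullOn ι X)
    (g : X → Y) (hg : Function.Surjective g) : FullOn ι Y := by
  obtain ⟨D, hD⟩ := h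
  refine ⟨fun x => g (D x), fun x c hc => ?_⟩
  obtain ⟨c', rfl⟩ := hg c
  obtain ⟨i, hi⟩ := hD x c' (fun h => hc (by simp only [h]))
  exact ⟨i, by simp only [hi]⟩

/-- A surjection between finite types, from cardinalities. -/
theorem exists_surj {X Y : Type} [Fintype X] [Fintype Y] [Nonempty Y]
    (h : Fintype.card Y ≤ Fintype.card X) : ∃ g : X → Y, Function.Surjective g := by
  obtain ⟨e⟩ := Function.Embedding.nonempty_of_card_le h
  exact ⟨Function.invFun e, Function.invFun_surjective e.injective⟩

theorem FullOn.of_card {ι κ : Type} [DecidableEq ι] [DecidableEq κ] [Fintype ι] [Fintype κ]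
    {X Y : Type} [Fintype X] [Fintype Y] [Nonempty Y] (h : FullOn ι X)
    (h1 : Fintype.card ι ≤ Fintype.card κ) (h2 : Fintype.card Y ≤ Fintype.card X) :
    FullOn κ Y := by
  obtain ⟨e⟩ := Function.Embedding.nonempty_of_card_le h1
  obtain ⟨g, hg⟩ := exists_surj h2
  exact (h.mono e e.injective).surj g hg

/-- The Hamming colouring. -/
theorem full_hamming (r : ℕ) : FullOn (Fin r → ZMod 2) (Fin r → ZMod 2) := by
  classical
  refine ⟨fun x => ∑ v : Fin r → ZMod 2, if x v then v else 0, fun x c hc => ?_⟩
  set d := c - ∑ v : Fin r → ZMod 2, (if x v then v else 0) with hd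
  refine ⟨d, ?_⟩
  have h1 : ∀ v : Fin r → ZMod 2, (if flip x d v then v else 0) =
      (if x v then v else 0) + (if v = d then d else 0) := by
    intro v
    have h2 : ∀ w : Fin r → ZMod 2, w + w = 0 := by
      intro w
      funext i
      exact CharTwo.add_self_eq_zero (w i)
    by_cases hv : v = d
    · rw [hv, flip_self]
      cases x d <;> simp [h2]
    · rw [flip_ne _ hv]
      simp [hv]
  simp only [h1]
  rw [sum_add_distrib, sum_ite_eq' univ d (fun _ => d)]
  simp only [mem_univ, if_true]
  rw [hd]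
  abel

open scoped LinearAlgebra.Projectivization

/-- The product construction. -/
theorem full_product {ι : Type} [DecidableEq ι] (q m g : ℕ) [Fact q.Prime] (hm : 1 ≤ m)
    (J : Type) [Fintype J] [DecidableEq J] (v : J → (Fin m → ZMod q))
    (hv : ∀ w : Fin m → ZMod q, ∃ (j : J) (a : ZMod q), w = a • v j)
    (h : FullOn ι (ZMod q × ZMod g)) : FullOn (J × ι) ((Fin m → ZMod q) × ZMod g) := by
  classical
  obtain ⟨h, hh⟩ := h
  let A : (J → ZMod q × ZMod g) → (Fin m → ZMod q) × ZMod g := fun s =>
    (∑ j, (s j).1 • v j, ∑ j, (s j).2)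
  refine ⟨fun x => A (fun j => h (fun i => x (j, i))), fun x c hc => ?_⟩
  set s : J → ZMod q × ZMod g := fun j => h (fun i => x (j, i)) with hs
  obtain ⟨j, a, ha⟩ := hv (c.1 - (A s).1)
  have hne : h (fun i => x (j, i)) ≠ s j + (a, c.2 - (A s).2) := by
    intro heq
    have h0 : (a, c.2 - (A s).2) = (0 : ZMod q × ZMod g) := by
      have : s j = s j + (a, c.2 - (A s).2) := heq
      exact left_eq_add.1 this
    have ha0 : a = 0 := congrArg Prod.fst h0
    have hc0 : c.2 - (A s).2 = 0 := congrArg Prod.snd h0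
    apply hc
    rw [ha0, zero_smul, sub_eq_zero] at ha
    rw [sub_eq_zero] at hc0
    exact Prod.ext ha.symm hc0.symm
  obtain ⟨i, hi⟩ := hh _ _ hne
  refine ⟨(j, i), ?_⟩
  have hnew : (fun j' => h (fun i' => flip x (j, i) (j', i'))) =
      fun j' => s j' + (if j' = j then (a, c.2 - (A s).2) else 0) := by
    funext j'
    by_cases hj : j' = j
    · subst hj
      rw [if_pos rfl, ← hi]
      congr 1
      funext i'
      by_cases hi' : i' = i
      · subst hi'; rw [flip_self, flip_self]
      · rw [flip_ne _ hi', flip_ne _ (fun h => hi' (congrArg Prod.snd h))]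
    · rw [if_neg hj, add_zero, hs]
      congr 1
      funext i'
      rw [flip_ne _ (fun h => hj (congrArg Prod.fst h))]
  change A (fun j' => h (fun i' => flip x (j, i) (j', i'))) = c
  rw [hnew]
  have hA1 : (A fun j' => s j' + (if j' = j then (a, c.2 - (A s).2) else 0)).1 = c.1 := by
    have : ∀ j', (s j' + (if j' = j then (a, c.2 - (A s).2) else 0)).1 • v j' =
        (s j').1 • v j' + (if j' = j then a • v j else 0) := by
      intro j'
      by_cases hj : j' = j
      · subst hj; simp [add_smul]
      · simp [hj]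
    simp only [A, this]
    rw [sum_add_distrib, sum_ite_eq' univ j (fun _ => a • v j)]
    simp only [mem_univ, if_true]
    rw [← ha]
    simp only [A]
    abel
  have hA2 : (A fun j' => s j' + (if j' = j then (a, c.2 - (A s).2) else 0)).2 = c.2 := by
    have : ∀ j', (s j' + (if j' = j then (a, c.2 - (A s).2) else 0)).2 =
        (s j').2 + (if j' = j then c.2 - (A s).2 else 0) := by
      intro j'
      by_cases hj : j' = j
      · subst hj; simp
      · simp [hj]
    simp only [A, this]
    rw [sum_add_distrib, sum_ite_eq' univ j (fun _ => c.2 - ∑ j, (s j).2)]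
    simp only [mem_univ, if_true]
    abel
  exact Prod.ext hA1 hA2

/-- A family of representatives of the lines. -/
theorem exists_lines (q m : ℕ) [hq : Fact q.Prime] (hm : 1 ≤ m) :
    ∃ (N : ℕ) (v : Fin N → (Fin m → ZMod q)),
      N * (q - 1) + 1 = q ^ m ∧ ∀ w : Fin m → ZMod q, ∃ (j : Fin N) (a : ZMod q), w = a • v j := by
  classical
  have hfin : Finite (ℙ (ZMod q) (Fin m → ZMod q)) :=
    (Projectivization.finite_iff_of_finite (ZMod q) (Fin m → ZMod q)).2 inferInstance
  let e := Finite.equivFin (ℙ (ZMod q) (Fin m → ZMod q))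
  refine ⟨Nat.card (ℙ (ZMod q) (Fin m → ZMod q)), fun j => (e.symm j).rep, ?_, ?_⟩
  · have h := Projectivization.card' (ZMod q) (Fin m → ZMod q)
    have h1 : Nat.card (Fin m → ZMod q) = q ^ m := by
      rw [Nat.card_fun, Nat.card_zmod, Nat.card_fin]
    have h2 : Nat.card (ZMod q) = q := Nat.card_zmod q
    rw [h1, h2] at h
    exact h.symm
  · intro w
    by_cases hw : w = 0
    · have hne : ∃ u : Fin m → ZMod q, u ≠ 0 := by
        refine ⟨fun _ => 1, fun h => ?_⟩
        have := congrFun h ⟨0, hm⟩
        exact one_ne_zero this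
      obtain ⟨u, hu⟩ := hne
      exact ⟨e (Projectivization.mk _ u hu), 0, by rw [zero_smul]; exact hw⟩
    · obtain ⟨a, ha⟩ := Projectivization.exists_smul_eq_mk_rep (ZMod q) w hw
      refine ⟨e (Projectivization.mk _ w hw), ((a⁻¹ : (ZMod q)ˣ) : ZMod q), ?_⟩
      simp only [Equiv.symm_apply_apply]
      rw [← ha, ← Units.smul_def, inv_smul_smul]

/-- Full colourings with parameters. -/
theorem full_param (q m a : ℕ) [Fact q.Prime] (hm : 1 ≤ m) (ha : q ≤ 2 ^ a) (N : ℕ)
    (hN : N * (q - 1) + 1 = q ^ m) : FullOn (Fin (N * 2 ^ a)) (Fin (q ^ m * (2 ^ a / q))) := by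
  classical
  have hq := (Fact.out : q.Prime)
  obtain ⟨N', v, hN', hv⟩ := exists_lines q m hm
  have hNN : N' = N := by
    have h1 : N' * (q - 1) = N * (q - 1) := by omega
    have h2 : 0 < q - 1 := by have := hq.two_le; omega
    exact Nat.eq_of_mul_eq_mul_right h2 h1
  subst hNN
  set g := 2 ^ a / q with hg
  have hgpos : 0 < g := Nat.div_pos ha hq.pos
  have : NeZero g := ⟨hgpos.ne'⟩
  have h0 := full_hamming a
  have h1 : FullOn (Fin a → ZMod 2) (ZMod q × ZMod g) := by
    refine h0.of_card le_rfl ?_
    rw [Fintype.card_prod, ZMod.card, ZMod.card, Fintype.card_fun, ZMod.card, Fintype.card_fin]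
    exact Nat.mul_div_le _ _
  have h2 := full_product q m g hm (Fin N') v hv h1
  have : Nonempty (Fin (q ^ m * g)) := ⟨⟨0, Nat.mul_pos (pow_pos hq.pos _) hgpos⟩⟩
  refine h2.of_card ?_ ?_
  · rw [Fintype.card_prod, Fintype.card_fin, Fintype.card_fun, ZMod.card, Fintype.card_fin,
      Fintype.card_fin]
  · rw [Fintype.card_prod, Fintype.card_fun, ZMod.card, ZMod.card, Fintype.card_fin,
      Fintype.card_fin]

end Pool.Agent.H269C
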