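import Mathlib
import Pool.Agent.H269C.Full

/-!
# Full colourings of `Q_n` with `(1-o(1)) n` colours
-/

set_option autoImplicit false

namespace Pool.Agent.H269C

open Finset

/-- a small nonzero combination of `log q` and `log 2` -/
theorem small_comb (q : ℕ) (hq : q.Prime) (hq3 : 3 ≤ q) (δ : ℝ) (hδ : 0 < δ) :
    ∃ (k j : ℕ) (s : ℝ), 0 < s ∧ s ≤ δ ∧
      ((k : ℝ) * Real.log q - j * Real.log 2 = s ∨ (k : ℝ) * Real.log q - j * Real.log 2 = -s) := by
  have hl2 : 0 < Real.log 2 := Real.log_pos (by norm_num)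
  have hL : Real.log 2 < Real.log q := Real.log_lt_log (by norm_num) (by exact_mod_cast hq3)
  obtain ⟨n, hn⟩ := exists_nat_gt (Real.log 2 / δ + 1)
  have hn1 : (1 : ℝ) < n := by
    have : 0 < Real.log 2 / δ := by positivity
    linarith
  have hnpos : 0 < n := by
    have : (0 : ℝ) < n := by linarith
    exact_mod_cast this
  obtain ⟨j, k, hk0, _, h⟩ := Real.exists_int_int_abs_mul_sub_le (Real.log q / Real.log 2) hnpos
  have hk1 : (1 : ℝ) ≤ k := by exact_mod_cast hk0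
  have hratio : 1 < Real.log q / Real.log 2 := by
    rw [lt_div_iff₀ hl2]; linarith
  have hle1 : 1 / ((n : ℝ) + 1) ≤ 1 := by
    rw [div_le_one (by positivity)]; linarith
  have hj : 0 ≤ j := by
    have h1 := (abs_le.1 h).2
    have h2 : (1 : ℝ) ≤ k * (Real.log q / Real.log 2) := by nlinarith
    have h3 : (0 : ℝ) ≤ j := by linarith
    exact_mod_cast h3
  obtain ⟨k', rfl⟩ := Int.eq_ofNat_of_zero_le hk0.le
  obtain ⟨j', rfl⟩ := Int.eq_ofNat_of_zero_le hj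
  simp only [Int.cast_natCast] at h hk1
  have hkpos : 0 < k' := by exact_mod_cast hk0
  have hne : (k' : ℝ) * Real.log q - j' * Real.log 2 ≠ 0 := by
    intro h0
    have h1 : Real.log ((q : ℝ) ^ k') = Real.log ((2 : ℝ) ^ j') := by
      rw [Real.log_pow, Real.log_pow]; linarith
    have h2 : (q : ℝ) ^ k' = (2 : ℝ) ^ j' := by
      have hqpos : (0 : ℝ) < q := by exact_mod_cast hq.pos
      exact Real.log_injOn_pos (Set.mem_Ioi.2 (by positivity)) (Set.mem_Ioi.2 (by positivity)) h1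
    have h3 : q ^ k' = 2 ^ j' := by exact_mod_cast h2
    have h4 : q ∣ 2 ^ j' := by
      rw [← h3]; exact dvd_pow_self q hkpos.ne'
    have h5 := (Nat.Prime.dvd_of_dvd_pow hq h4)
    have h6 := Nat.le_of_dvd (by norm_num) h5
    omega
  have hbound : |(k' : ℝ) * Real.log q - j' * Real.log 2| ≤ δ := by
    have h1 : (k' : ℝ) * Real.log q - j' * Real.log 2 =
        (k' * (Real.log q / Real.log 2) - j') * Real.log 2 := by
      field_simp
    rw [h1, abs_mul, abs_of_pos hl2]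
    have h2 : Real.log 2 / ((n : ℝ) + 1) ≤ δ := by
      rw [div_le_iff₀ (by positivity)]
      have h3 : Real.log 2 / δ < n := by linarith
      rw [div_lt_iff₀ hδ] at h3
      nlinarith
    calc |(k' : ℝ) * (Real.log q / Real.log 2) - j'| * Real.log 2
        ≤ 1 / ((n : ℝ) + 1) * Real.log 2 := by
          apply mul_le_mul_of_nonneg_right h hl2.le
      _ = Real.log 2 / ((n : ℝ) + 1) := by ring
      _ ≤ δ := h2
  refine ⟨k', j', |(k' : ℝ) * Real.log q - j' * Real.log 2|, abs_pos.2 hne, hbound, ?_⟩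
  rcases le_total 0 ((k' : ℝ) * Real.log q - j' * Real.log 2) with h0 | h0
  · left; rw [abs_of_nonneg h0]
  · right; rw [abs_of_nonpos h0, neg_neg]

theorem dioph (q : ℕ) (hq : q.Prime) (hq3 : 3 ≤ q) (δ : ℝ) (hδ : 0 < δ) (A : ℕ) :
    ∃ R₀ : ℝ, ∀ R : ℝ, R₀ ≤ R → ∃ m a : ℕ, 1 ≤ m ∧ A ≤ a ∧
      (1 - δ) * R ≤ (q : ℝ) ^ m * 2 ^ a ∧ (q : ℝ) ^ m * 2 ^ a ≤ R := by
  obtain ⟨k, j, s, hs, hsδ, hkj⟩ := small_comb q hq hq3 δ hδ
  have hl2 : 0 < Real.log 2 := Real.log_pos (by norm_num)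
  have hqpos : (0 : ℝ) < q := by exact_mod_cast hq.pos
  set L := Real.log q with hLdef
  set l := Real.log 2 with hldef
  set T := ⌈l / s⌉₊ with hT
  have hTle : l / s ≤ T := Nat.le_ceil _
  set m₀ := 1 + T * k with hm₀
  refine ⟨Real.exp (m₀ * L + (A + T * j : ℕ) * l) + 1, fun R hR => ?_⟩
  have hRpos : 0 < R := by
    have := Real.exp_pos (m₀ * L + (A + T * j : ℕ) * l)
    linarith
  have hlogR : m₀ * L + (A + T * j : ℕ) * l ≤ Real.log R := by
    rw [Real.le_log_iff_exp_le hRpos]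
    linarith
  set a₀ := ⌊(Real.log R - m₀ * L) / l⌋₊ with ha₀
  have hnn : 0 ≤ (Real.log R - m₀ * L) / l := by
    apply div_nonneg _ hl2.le
    have : (0 : ℝ) ≤ (A + T * j : ℕ) * l := by positivity
    linarith
  have h1 : (a₀ : ℝ) ≤ (Real.log R - m₀ * L) / l := Nat.floor_le hnn
  have h2 : (Real.log R - m₀ * L) / l < a₀ + 1 := Nat.lt_floor_add_one _
  rw [le_div_iff₀ hl2] at h1
  rw [div_lt_iff₀ hl2] at h2
  have ha₀A : A + T * j ≤ a₀ := by
    apply Nat.le_floor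
    rw [le_div_iff₀ hl2]
    linarith
  set ρ := Real.log R - m₀ * L - a₀ * l with hρ
  have hρ0 : 0 ≤ ρ := by rw [hρ]; linarith
  have hρ1 : ρ < l := by rw [hρ]; linarith
  set t := ⌊ρ / s⌋₊ with ht
  have ht1 : (t : ℝ) ≤ ρ / s := Nat.floor_le (div_nonneg hρ0 hs.le)
  have ht2 : ρ / s < t + 1 := Nat.lt_floor_add_one _
  rw [le_div_iff₀ hs] at ht1
  rw [div_lt_iff₀ hs] at ht2
  have htT : t ≤ T := by
    have : (t : ℝ) < T + 1 := by
      have h3 : (t : ℝ) * s < l := by linarith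
      have h4 : (t : ℝ) < l / s := by rwa [lt_div_iff₀ hs]
      linarith
    have h5 : t < T + 1 := by exact_mod_cast this
    omega
  have htk : t * k ≤ T * k := Nat.mul_le_mul_right _ htT
  have htj : t * j ≤ T * j := Nat.mul_le_mul_right _ htT
  have key : ∃ m a : ℕ, 1 ≤ m ∧ A ≤ a ∧ (m : ℝ) * L + a * l = m₀ * L + a₀ * l + t * s := by
    rcases hkj with h | h
    · refine ⟨m₀ + t * k, a₀ - t * j, by omega, by omega, ?_⟩
      rw [Nat.cast_sub (by omega)]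
      push_cast
      have : (t : ℝ) * s = t * (k * L - j * l) := by rw [h]
      rw [this]
      ring
    · refine ⟨m₀ - t * k, a₀ + t * j, by omega, by omega, ?_⟩
      rw [Nat.cast_sub (by omega)]
      push_cast
      have : (t : ℝ) * s = - (t * (k * L - j * l)) := by rw [h]; ring
      rw [this]
      ring
  obtain ⟨m, a, hm, ha, hma⟩ := key
  refine ⟨m, a, hm, ha, ?_⟩
  have hexp : (q : ℝ) ^ m * 2 ^ a = Real.exp (m * L + a * l) := by
    rw [Real.exp_add, mul_comm (m : ℝ), mul_comm (a : ℝ), Real.exp_mul, Real.exp_mul,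
      Real.exp_log hqpos, Real.exp_log (by norm_num), Real.rpow_natCast, Real.rpow_natCast]
  rw [hexp, hma]
  have hup : m₀ * L + a₀ * l + t * s ≤ Real.log R := by rw [hρ] at ht1; linarith
  have hlo : Real.log R - δ ≤ m₀ * L + a₀ * l + t * s := by
    have : ρ < (t + 1) * s := ht2
    rw [hρ] at this
    nlinarith
  constructor
  · calc (1 - δ) * R ≤ Real.exp (-δ) * R := by
          apply mul_le_mul_of_nonneg_right _ hRpos.le
          have := Real.add_one_le_exp (-δ)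
          linarith
      _ = Real.exp (Real.log R - δ) := by
          rw [sub_eq_add_neg, Real.exp_add, Real.exp_log hRpos, mul_comm]
      _ ≤ _ := Real.exp_le_exp.2 hlo
  · calc Real.exp (m₀ * L + a₀ * l + t * s) ≤ Real.exp (Real.log R) := Real.exp_le_exp.2 hup
      _ = R := Real.exp_log hRpos

/-- The cube `Q_n` has a full colouring with `(1-o(1)) n` colours. -/
theorem full_asymp (ε : ℝ) (hε : 0 < ε) (hε1 : ε < 1) :
    ∃ n₀ : ℕ, ∀ n : ℕ, n₀ ≤ n → ∃ M : ℕ, (1 - ε) * n ≤ M ∧ FullOn (Fin n) (Fin M) := by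
  set δ := ε / 3 with hδ
  have hδ0 : 0 < δ := by positivity
  obtain ⟨Q, hQ⟩ := exists_nat_gt (1 / δ)
  obtain ⟨q, hqQ, hq⟩ := Nat.exists_infinite_primes (max Q 3)
  have hq3 : 3 ≤ q := le_trans (le_max_right _ _) hqQ
  have hQq : Q ≤ q := le_trans (le_max_left _ _) hqQ
  have hqR : 1 / δ < q := lt_of_lt_of_le hQ (by exact_mod_cast hQq)
  have hqpos : (0 : ℝ) < q := by exact_mod_cast hq.pos
  have hq1 : 1 / (q : ℝ) < δ := by
    rw [div_lt_iff₀ hqpos]
    rw [div_lt_iff₀ hδ0] at hqR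
    linarith
  obtain ⟨A, hA⟩ := pow_unbounded_of_one_lt ((q : ℝ) / δ) (one_lt_two)
  obtain ⟨R₀, hR₀⟩ := dioph q hq hq3 δ hδ0 A
  obtain ⟨n₀, hn₀⟩ := exists_nat_gt (max R₀ 1)
  have : Fact q.Prime := ⟨hq⟩
  refine ⟨n₀, fun n hn => ?_⟩
  have hnR : max R₀ 1 < n := lt_of_lt_of_le hn₀ (by exact_mod_cast hn)
  have hn1 : (1 : ℝ) < n := lt_of_le_of_lt (le_max_right _ _) hnR
  have hnR0 : R₀ < n := lt_of_le_of_lt (le_max_left _ _) hnR
  have hq3R : (3 : ℝ) ≤ q := by exact_mod_cast hq3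
  have hRR : R₀ ≤ ((q : ℝ) - 1) * n := by nlinarith
  obtain ⟨m, a, hm, ha, hlo, hup⟩ := hR₀ _ hRR
  obtain ⟨N, v, hN, -⟩ := exists_lines q m hm
  have h2a : (q : ℝ) / δ < 2 ^ a := lt_of_lt_of_le hA (pow_le_pow_right₀ (by norm_num) ha)
  have h2aq : (q : ℝ) < δ * 2 ^ a := by
    rw [div_lt_iff₀ hδ0] at h2a; linarith
  have hδ1 : δ < 1 := by rw [hδ]; linarith
  have hqa : q ≤ 2 ^ a := by
    have : (q : ℝ) ≤ 2 ^ a := by
      have : (0 : ℝ) < 2 ^ a := by positivity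
      nlinarith
    exact_mod_cast this
  have hfull := full_param q m a hm hqa N hN
  have hNR : (N : ℝ) * (q - 1) + 1 = q ^ m := by
    have h1 : ((N * (q - 1) + 1 : ℕ) : ℝ) = ((q ^ m : ℕ) : ℝ) := by rw [hN]
    push_cast [Nat.cast_sub hq.one_le] at h1
    exact h1
  have hNn : N * 2 ^ a ≤ n := by
    have h1 : (N : ℝ) * 2 ^ a ≤ n := by
      have h2 : ((q : ℝ) - 1) * (N * 2 ^ a) ≤ (q - 1) * n := by
        calc ((q : ℝ) - 1) * (N * 2 ^ a) = (q ^ m - 1) * 2 ^ a := by rw [← hNR]; ring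
          _ ≤ q ^ m * 2 ^ a := by
            have : (0 : ℝ) < 2 ^ a := by positivity
            nlinarith
          _ ≤ _ := hup
      exact le_of_mul_le_mul_left h2 (by linarith)
    exact_mod_cast h1
  have hgpos : 0 < 2 ^ a / q := Nat.div_pos hqa hq.pos
  have hMpos : 0 < q ^ m * (2 ^ a / q) := Nat.mul_pos (pow_pos hq.pos _) hgpos
  have : Nonempty (Fin (q ^ m * (2 ^ a / q))) := ⟨⟨0, hMpos⟩⟩
  refine ⟨q ^ m * (2 ^ a / q), ?_, hfull.of_card (by simpa using hNn) le_rfl⟩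
  have hdiv : (2 : ℝ) ^ a / q - 1 ≤ ((2 ^ a / q : ℕ) : ℝ) := by
    have h1 : 2 ^ a < q * (2 ^ a / q) + q := by
      have h3 := Nat.lt_mul_div_succ (2 ^ a) hq.pos
      linarith [h3, Nat.mul_add q (2 ^ a / q) 1]
    have h2 : (2 : ℝ) ^ a < q * ((2 ^ a / q : ℕ) : ℝ) + q := by exact_mod_cast h1
    rw [sub_le_iff_le_add, div_le_iff₀ hqpos]
    nlinarith
  have hqm : (0 : ℝ) < (q : ℝ) ^ m := by positivity
  have h2apos : (0 : ℝ) < 2 ^ a := by positivity
  have e1 : (1 - δ) * (((q : ℝ) ^ m * 2 ^ a) / q) ≤ (q : ℝ) ^ m * ((2 : ℝ) ^ a / q - 1) := by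
    have h1 : (q : ℝ) ^ m ≤ δ * (((q : ℝ) ^ m * 2 ^ a) / q) := by
      rw [mul_div_assoc', le_div_iff₀ hqpos]
      nlinarith
    have h2 : (q : ℝ) ^ m * ((2 : ℝ) ^ a / q - 1) = ((q : ℝ) ^ m * 2 ^ a) / q - q ^ m := by ring
    rw [h2]
    linarith
  have e2 : (1 - δ) * ((1 - δ) * n) ≤ ((q : ℝ) ^ m * 2 ^ a) / q := by
    rw [le_div_iff₀ hqpos]
    have h1 : (1 - δ) * q ≤ q - 1 := by
      have : 1 < δ * q := by
        rw [div_lt_iff₀ hqpos] at hq1; linarith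
      linarith
    have h2 : (0 : ℝ) ≤ (1 - δ) * n := by
      apply mul_nonneg <;> linarith
    calc (1 - δ) * ((1 - δ) * n) * q = ((1 - δ) * n) * ((1 - δ) * q) := by ring
      _ ≤ ((1 - δ) * n) * (q - 1) := mul_le_mul_of_nonneg_left h1 h2
      _ = (1 - δ) * ((q - 1) * n) := by ring
      _ ≤ _ := hlo
  have e3 : (1 - ε) * n ≤ (1 - δ) * ((1 - δ) * ((1 - δ) * n)) := by
    have h1 : (1 - ε) ≤ (1 - δ) * ((1 - δ) * (1 - δ)) := by
      have h3 : ε = 3 * δ := by rw [hδ]; ring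
      have h4 : 0 ≤ δ ^ 2 * (3 - δ) := by
        apply mul_nonneg (sq_nonneg _); linarith
      have h5 : (1 - δ) * ((1 - δ) * (1 - δ)) = 1 - 3 * δ + δ ^ 2 * (3 - δ) := by ring
      rw [h5]
      linarith
    calc (1 - ε) * n ≤ ((1 - δ) * ((1 - δ) * (1 - δ))) * n :=
          mul_le_mul_of_nonneg_right h1 (by linarith)
      _ = _ := by ring
  push_cast
  calc (1 - ε) * n ≤ (1 - δ) * ((1 - δ) * ((1 - δ) * n)) := e3
    _ ≤ (1 - δ) * (((q : ℝ) ^ m * 2 ^ a) / q) :=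
        mul_le_mul_of_nonneg_left e2 (by linarith)
    _ ≤ (q : ℝ) ^ m * ((2 : ℝ) ^ a / q - 1) := e1
    _ ≤ (q : ℝ) ^ m * ((2 ^ a / q : ℕ) : ℝ) := mul_le_mul_of_nonneg_left hdiv hqm.le

end Pool.Agent.H269C
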