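import Mathlib
import Pool.Agent.H269C.Full

/-!
# From full colourings to partitions into connected, doubly dominating classes
-/

set_option autoImplicit false

namespace Pool.Agent.H269C

open Finset Relation

theorem rtg_lift {α β : Type} {r : α → α → Prop} {p : β → β → Prop} (f : α → β)
    (h : ∀ a b, r a b → p (f a) (f b)) {a b : α} (hab : ReflTransGen r a b) :
    ReflTransGen p (f a) (f b) := by
  induction hab with
  | refl => exact .refl
  | tail _ hbc ih => exact ih.tail (h _ _ hbc)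

theorem rtg_symm {α : Type} {r : α → α → Prop} (h : ∀ a b, r a b → r b a) {a b : α}
    (hab : ReflTransGen r a b) : ReflTransGen r b a := by
  induction hab with
  | refl => exact .refl
  | tail _ hbc ih => exact ReflTransGen.head (h _ _ hbc) ih

/-- A partition of the cube into `K` connected classes, each split into two parts, such that
every vertex has a neighbour in each part of every other class. -/
def Scheme (I : Type) [DecidableEq I] (K : ℕ) : Prop :=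
  ∃ (cls : (I → Bool) → Fin K) (sub : (I → Bool) → Bool),
    (∀ x j β, cls x ≠ j → ∃ i, cls (flip x i) = j ∧ sub (flip x i) = β) ∧
    ∀ x y, cls x = cls y → ReflTransGen (fun a b => cls a = cls b ∧ ∃ i, b = flip a i) x y

theorem Scheme.congr {I J : Type} [DecidableEq I] [DecidableEq J] (e : I ≃ J) {K : ℕ}
    (h : Scheme I K) : Scheme J K := by
  obtain ⟨cls, sub, h1, h2⟩ := h
  have hflip : ∀ (x : J → Bool) (i : I), (fun k => flip x (e i) (e k)) =
      flip (fun k => x (e k)) i := by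
    intro x i
    funext k
    by_cases hk : k = i
    · subst hk; rw [flip_self, flip_self]
    · rw [flip_ne _ hk, flip_ne _ (fun h => hk (e.injective h))]
  refine ⟨fun x => cls (fun i => x (e i)), fun x => sub (fun i => x (e i)), ?_, ?_⟩
  · intro x j β hx
    obtain ⟨i, hi1, hi2⟩ := h1 _ j β hx
    refine ⟨e i, ?_, ?_⟩
    · simp only [hflip]; exact hi1
    · simp only [hflip]; exact hi2
  · intro x y hxy
    have h3 := h2 _ _ hxy
    have h4 := rtg_lift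
      (p := fun a b : J → Bool => cls (fun i => a (e i)) = cls (fun i => b (e i)) ∧
        ∃ i, b = flip a i) (fun z : I → Bool => fun j => z (e.symm j)) ?_ h3
    · simpa using h4
    · rintro a b ⟨hab, i, rfl⟩
      refine ⟨by simpa using hab, e i, ?_⟩
      funext j
      by_cases hj : j = e i
      · subst hj; rw [flip_self]; simp [flip_self]
      · rw [flip_ne _ hj, flip_ne]
        intro h
        exact hj (by rw [← h, Equiv.apply_symm_apply])

theorem cube_conn {κ : Type} [DecidableEq κ] [Fintype κ] (x y : κ → Bool) :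
    ReflTransGen (fun a b : κ → Bool => ∃ i, b = flip a i) x y := by
  have main : ∀ (n : ℕ) (x y : κ → Bool), (univ.filter (fun i => x i ≠ y i)).card = n →
      ReflTransGen (fun a b : κ → Bool => ∃ i, b = flip a i) x y := by
    intro n
    induction n with
    | zero =>
      intro x y h
      rw [card_eq_zero, filter_eq_empty_iff] at h
      have : x = y := by
        funext i
        by_contra hi
        exact h (mem_univ i) hi
      rw [this]
    | succ n ih =>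
      intro x y h
      obtain ⟨i, hi⟩ : (univ.filter (fun i => x i ≠ y i)).Nonempty := by
        rw [← card_pos]; omega
      rw [mem_filter] at hi
      refine ReflTransGen.head ⟨i, rfl⟩ (ih (flip x i) y ?_)
      have : (univ.filter (fun j => flip x i j ≠ y j)) =
          (univ.filter (fun j => x j ≠ y j)).erase i := by
        ext j
        simp only [mem_filter, mem_erase, mem_univ, true_and]
        by_cases hj : j = i
        · subst hj
          rw [flip_self]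
          have := hi.2
          cases hx : x j <;> cases hy : y j <;> simp_all
        · rw [flip_ne _ hj]
          simp [hj]
      rw [this, card_erase_of_mem (mem_filter.2 hi), h]
      rfl
  exact main _ x y rfl

theorem flip_elim_inl {α β : Type} [DecidableEq α] [DecidableEq β] (x : α → Bool) (r : β → Bool)
    (i : α) : flip (Sum.elim x r) (Sum.inl i) = Sum.elim (flip x i) r := by
  funext k
  rcases k with k | k
  · by_cases hk : k = i
    · subst hk; rw [flip_self]; simp [flip_self]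
    · rw [flip_ne _ (fun h => hk (Sum.inl.inj h))]; simp [flip_ne _ hk]
  · rw [flip_ne _ (by simp)]; rfl

theorem flip_elim_inr {α β : Type} [DecidableEq α] [DecidableEq β] (x : α → Bool) (r : β → Bool)
    (i : β) : flip (Sum.elim x r) (Sum.inr i) = Sum.elim x (flip r i) := by
  funext k
  rcases k with k | k
  · rw [flip_ne _ (by simp)]; rfl
  · by_cases hk : k = i
    · subst hk; rw [flip_self]; simp [flip_self]
    · rw [flip_ne _ (fun h => hk (Sum.inr.inj h))]; simp [flip_ne _ hk]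

theorem scheme_of_full {n d s K : ℕ} [NeZero s] (hD : FullOn (Fin n) (ZMod s × ZMod s))
    (hd : s ≤ 2 ^ d) (hKd : K ≤ 2 ^ d) (hKs : 2 * K ≤ (s - 1) * (s - 1)) (hK : 1 ≤ K) :
    Scheme (Fin n ⊕ (Fin d ⊕ (Fin d ⊕ Fin d))) K := by
  classical
  obtain ⟨D, hD⟩ := hD
  have : Nonempty (Fin K) := ⟨⟨0, hK⟩⟩
  have : Nonempty (ZMod s) := ⟨0⟩
  obtain ⟨ρ, hρ⟩ : ∃ ρ : (Fin d → Bool) → ZMod s, Function.Surjective ρ := by
    apply exists_surj
    rw [ZMod.card, Fintype.card_fun, Fintype.card_bool, Fintype.card_fin]; exact hd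
  obtain ⟨ψ, hψ⟩ : ∃ ψ : (Fin d → Bool) → Fin K, Function.Surjective ψ := by
    apply exists_surj
    rw [Fintype.card_fin, Fintype.card_fun, Fintype.card_bool, Fintype.card_fin]; exact hKd
  obtain ⟨θ, hθ⟩ : ∃ θ : ZMod s × ZMod s → Fin K × Bool, ∀ c, ∃ κ : ZMod s × ZMod s,
      κ.1 ≠ 0 ∧ κ.2 ≠ 0 ∧ θ κ = c := by
    have hc : Fintype.card {a : ZMod s // a ≠ 0} = s - 1 := by
      have := Set.card_ne_eq (0 : ZMod s)
      rw [ZMod.card] at this
      exact this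
    obtain ⟨g, hg⟩ := exists_surj (X := {a : ZMod s // a ≠ 0} × {a : ZMod s // a ≠ 0})
      (Y := Fin K × Bool) (by
        rw [Fintype.card_prod, Fintype.card_prod, hc, Fintype.card_fin, Fintype.card_bool]
        linarith)
    refine ⟨fun κ => if h : κ.1 ≠ 0 ∧ κ.2 ≠ 0 then g (⟨κ.1, h.1⟩, ⟨κ.2, h.2⟩) else
      (⟨0, hK⟩, false), fun c => ?_⟩
    obtain ⟨⟨a, b⟩, hab⟩ := hg c
    refine ⟨(a.1, b.1), a.2, b.2, ?_⟩
    have h3 : (a.1 ≠ 0 ∧ b.1 ≠ 0) := ⟨a.2, b.2⟩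
    simp only [dif_pos h3]
    exact hab
  -- total colour
  let tot : (Fin n → Bool) → (Fin d → Bool) → (Fin d → Bool) → ZMod s × ZMod s :=
    fun x r₁ r₂ => D x + (ρ r₁, ρ r₂)
  let gar : (Fin n → Bool) → (Fin d → Bool) → (Fin d → Bool) → Prop :=
    fun x r₁ r₂ => (tot x r₁ r₂).1 = 0 ∨ (tot x r₁ r₂).2 = 0
  let C : (Fin n → Bool) → (Fin d → Bool) → (Fin d → Bool) → (Fin d → Bool) → Fin K :=
    fun x r₁ r₂ y => if gar x r₁ r₂ then ψ y else (θ (tot x r₁ r₂)).1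
  let B : (Fin n → Bool) → (Fin d → Bool) → (Fin d → Bool) → Bool :=
    fun x r₁ r₂ => if gar x r₁ r₂ then false else (θ (tot x r₁ r₂)).2
  let st : (Fin n → Bool) → (Fin d → Bool) → (Fin d → Bool) → (Fin d → Bool) →
      (Fin n ⊕ (Fin d ⊕ (Fin d ⊕ Fin d)) → Bool) :=
    fun x r₁ r₂ y => Sum.elim x (Sum.elim r₁ (Sum.elim r₂ y))
  have hst : ∀ z, ∃ x r₁ r₂ y, z = st x r₁ r₂ y := by
    intro z
    refine ⟨fun i => z (Sum.inl i), fun i => z (Sum.inr (Sum.inl i)),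
      fun i => z (Sum.inr (Sum.inr (Sum.inl i))), fun i => z (Sum.inr (Sum.inr (Sum.inr i))), ?_⟩
    funext k
    rcases k with k | k | k | k <;> rfl
  let cls : (Fin n ⊕ (Fin d ⊕ (Fin d ⊕ Fin d)) → Bool) → Fin K := fun z =>
    C (fun i => z (Sum.inl i)) (fun i => z (Sum.inr (Sum.inl i)))
      (fun i => z (Sum.inr (Sum.inr (Sum.inl i)))) (fun i => z (Sum.inr (Sum.inr (Sum.inr i))))
  let sub : (Fin n ⊕ (Fin d ⊕ (Fin d ⊕ Fin d)) → Bool) → Bool := fun z =>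
    B (fun i => z (Sum.inl i)) (fun i => z (Sum.inr (Sum.inl i)))
      (fun i => z (Sum.inr (Sum.inr (Sum.inl i))))
  have hcls : ∀ x r₁ r₂ y, cls (st x r₁ r₂ y) = C x r₁ r₂ y := fun _ _ _ _ => rfl
  have hsub : ∀ x r₁ r₂ y, sub (st x r₁ r₂ y) = B x r₁ r₂ := fun _ _ _ _ => rfl
  have hCg : ∀ x r₁ r₂ y, gar x r₁ r₂ → C x r₁ r₂ y = ψ y := fun x r₁ r₂ y h => if_pos h
  have hCr : ∀ x r₁ r₂ y, ¬ gar x r₁ r₂ → C x r₁ r₂ y = (θ (tot x r₁ r₂)).1 :=
    fun x r₁ r₂ y h => if_neg h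
  have hBr : ∀ x r₁ r₂, ¬ gar x r₁ r₂ → B x r₁ r₂ = (θ (tot x r₁ r₂)).2 :=
    fun x r₁ r₂ h => if_neg h
  have hfx : ∀ x r₁ r₂ y i, flip (st x r₁ r₂ y) (Sum.inl i) = st (flip x i) r₁ r₂ y :=
    fun x r₁ r₂ y i => flip_elim_inl _ _ _
  have hf1 : ∀ x r₁ r₂ y i, flip (st x r₁ r₂ y) (Sum.inr (Sum.inl i)) = st x (flip r₁ i) r₂ y :=
    fun x r₁ r₂ y i => by
      simp only [st]; rw [flip_elim_inr, flip_elim_inl]
  have hf2 : ∀ x r₁ r₂ y i, flip (st x r₁ r₂ y) (Sum.inr (Sum.inr (Sum.inl i))) =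
      st x r₁ (flip r₂ i) y :=
    fun x r₁ r₂ y i => by
      simp only [st]; rw [flip_elim_inr, flip_elim_inr, flip_elim_inl]
  have hf3 : ∀ x r₁ r₂ y i, flip (st x r₁ r₂ y) (Sum.inr (Sum.inr (Sum.inr i))) =
      st x r₁ r₂ (flip y i) :=
    fun x r₁ r₂ y i => by
      simp only [st]; rw [flip_elim_inr, flip_elim_inr, flip_elim_inr]
  -- reaching a colour by one flip
  have hreach : ∀ x r₁ r₂ κ, tot x r₁ r₂ ≠ κ → ∃ i, tot (flip x i) r₁ r₂ = κ := by
    intro x r₁ r₂ κ h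
    have h1 : D x ≠ κ - (ρ r₁, ρ r₂) := by
      intro h2
      apply h
      simp only [tot, h2, sub_add_cancel]
    obtain ⟨i, hi⟩ := hD x _ h1
    refine ⟨i, ?_⟩
    simp only [tot, hi, sub_add_cancel]
  let Rel : (Fin n ⊕ (Fin d ⊕ (Fin d ⊕ Fin d)) → Bool) →
      (Fin n ⊕ (Fin d ⊕ (Fin d ⊕ Fin d)) → Bool) → Prop :=
    fun a b => cls a = cls b ∧ ∃ i, b = flip a i
  have hsymm : ∀ a b, ReflTransGen Rel a b → ReflTransGen Rel b a := by
    intro a b h
    refine rtg_symm ?_ h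
    rintro a b ⟨h1, i, rfl⟩
    exact ⟨h1.symm, i, (flip_flip a i).symm⟩
  have hstepx : ∀ x r₁ r₂ y i, C x r₁ r₂ y = C (flip x i) r₁ r₂ y →
      Rel (st x r₁ r₂ y) (st (flip x i) r₁ r₂ y) := by
    intro x r₁ r₂ y i h
    exact ⟨h, Sum.inl i, (hfx _ _ _ _ _).symm⟩
  -- moves in the last block
  have mvy : ∀ x r₁ r₂ y y', ¬ gar x r₁ r₂ →
      ReflTransGen Rel (st x r₁ r₂ y) (st x r₁ r₂ y') := by
    intro x r₁ r₂ y y' h
    refine rtg_lift (fun y => st x r₁ r₂ y) ?_ (cube_conn y y')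
    rintro a b ⟨i, rfl⟩
    refine ⟨?_, _, (hf3 _ _ _ _ i).symm⟩
    rw [hcls, hcls, hCr _ _ _ _ h, hCr _ _ _ _ h]
  have mv1 : ∀ x r₁ r₁' r₂ y, (D x).2 + ρ r₂ = 0 →
      ReflTransGen Rel (st x r₁ r₂ y) (st x r₁' r₂ y) := by
    intro x r₁ r₁' r₂ y h
    refine rtg_lift (fun r => st x r r₂ y) ?_ (cube_conn r₁ r₁')
    rintro a b ⟨i, rfl⟩
    refine ⟨?_, _, (hf1 _ _ _ _ i).symm⟩
    rw [hcls, hcls, hCg x a r₂ y (Or.inr h), hCg x (flip a i) r₂ y (Or.inr h)]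
  have mv2 : ∀ x r₁ r₂ r₂' y, (D x).1 + ρ r₁ = 0 →
      ReflTransGen Rel (st x r₁ r₂ y) (st x r₁ r₂' y) := by
    intro x r₁ r₂ r₂' y h
    refine rtg_lift (fun r => st x r₁ r y) ?_ (cube_conn r₂ r₂')
    rintro a b ⟨i, rfl⟩
    refine ⟨?_, _, (hf2 _ _ _ _ i).symm⟩
    rw [hcls, hcls, hCg x r₁ a y (Or.inl h), hCg x r₁ (flip a i) y (Or.inl h)]
  have G1 : ∀ x r₁ r₂ y i, gar x r₁ r₂ → ∃ r₁' r₂', gar (flip x i) r₁' r₂' ∧
      ReflTransGen Rel (st x r₁ r₂ y) (st (flip x i) r₁' r₂' y) := by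
    intro x r₁ r₂ y i hg
    rcases hg with hg | hg
    · obtain ⟨r, hr⟩ := hρ (-(D (flip x i)).2)
      have hg' : gar (flip x i) r₁ r := Or.inr (by
        change (D (flip x i)).2 + ρ r = 0
        rw [hr]; exact add_neg_cancel _)
      refine ⟨r₁, r, hg', (mv2 x r₁ r₂ r y hg).tail (hstepx _ _ _ _ _ ?_)⟩
      rw [hCg _ _ _ _ hg', hCg x r₁ r y (Or.inl hg)]
    · obtain ⟨r, hr⟩ := hρ (-(D (flip x i)).1)
      have hg' : gar (flip x i) r r₂ := Or.inl (by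
        change (D (flip x i)).1 + ρ r = 0
        rw [hr]; exact add_neg_cancel _)
      refine ⟨r, r₂, hg', (mv1 x r₁ r r₂ y hg).tail (hstepx _ _ _ _ _ ?_)⟩
      rw [hCg _ _ _ _ hg', hCg x r r₂ y (Or.inr hg)]
  have G2 : ∀ x x' r₁ r₂ y, gar x r₁ r₂ → ∃ r₁' r₂', gar x' r₁' r₂' ∧
      ReflTransGen Rel (st x r₁ r₂ y) (st x' r₁' r₂' y) := by
    intro x x' r₁ r₂ y hg
    have hpath := cube_conn x x'
    induction hpath with
    | refl => exact ⟨r₁, r₂, hg, ReflTransGen.refl⟩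
    | tail _ hbc ih =>
      obtain ⟨i, rfl⟩ := hbc
      obtain ⟨s₁, s₂, hs, hp⟩ := ih
      obtain ⟨t₁, t₂, ht, hq⟩ := G1 _ s₁ s₂ y i hs
      exact ⟨t₁, t₂, ht, hp.trans hq⟩
  let x₀ : Fin n → Bool := fun _ => false
  obtain ⟨a₀, ha₀⟩ := hρ (-(D x₀).1)
  obtain ⟨b₀, hb₀⟩ := hρ (-(D x₀).2)
  have ha : (D x₀).1 + ρ a₀ = 0 := by rw [ha₀]; exact add_neg_cancel _
  have hb : (D x₀).2 + ρ b₀ = 0 := by rw [hb₀]; exact add_neg_cancel _
  have G3 : ∀ x r₁ r₂ y, gar x r₁ r₂ → ReflTransGen Rel (st x r₁ r₂ y) (st x₀ a₀ b₀ y) := by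
    intro x r₁ r₂ y hg
    obtain ⟨s₁, s₂, hs, hp⟩ := G2 x x₀ r₁ r₂ y hg
    refine hp.trans ?_
    rcases hs with hs | hs
    · exact (mv2 x₀ s₁ s₂ b₀ y hs).trans (mv1 x₀ s₁ a₀ b₀ y hb)
    · exact (mv1 x₀ s₁ a₀ s₂ y hs).trans (mv2 x₀ a₀ s₂ b₀ y ha)
  choose yy hyy using hψ
  have G4 : ∀ x r₁ r₂ y, ¬ gar x r₁ r₂ →
      ReflTransGen Rel (st x r₁ r₂ y) (st x₀ a₀ b₀ (yy (C x r₁ r₂ y))) := by
    intro x r₁ r₂ y hr
    refine (mvy x r₁ r₂ y (yy (C x r₁ r₂ y)) hr).trans ?_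
    obtain ⟨i, hi⟩ := hreach x r₁ r₂ 0 (fun h => hr (Or.inl (by rw [h]; rfl)))
    have hg : gar (flip x i) r₁ r₂ := Or.inl (by rw [hi]; rfl)
    refine ReflTransGen.head (hstepx _ _ _ _ i ?_) (G3 _ _ _ _ hg)
    rw [hCg _ _ _ _ hg, hyy, hCr _ _ _ _ hr, hCr _ _ _ _ hr]
  have G5 : ∀ x r₁ r₂ y, gar x r₁ r₂ →
      ReflTransGen Rel (st x r₁ r₂ y) (st x₀ a₀ b₀ (yy (C x r₁ r₂ y))) := by
    intro x r₁ r₂ y hg
    obtain ⟨κ, h1, h2, hκ⟩ := hθ (C x r₁ r₂ y, false)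
    obtain ⟨i, hi⟩ := hreach x r₁ r₂ κ (fun h => by
      rcases hg with hg | hg
      · rw [h] at hg; exact h1 hg
      · rw [h] at hg; exact h2 hg)
    have hr : ¬ gar (flip x i) r₁ r₂ := by
      rintro (h | h)
      · rw [hi] at h; exact h1 h
      · rw [hi] at h; exact h2 h
    have hC : C (flip x i) r₁ r₂ y = C x r₁ r₂ y := by
      rw [hCr _ _ _ _ hr, hi, hκ]
    have h3 := G4 (flip x i) r₁ r₂ y hr
    rw [hC] at h3
    exact ReflTransGen.head (hstepx _ _ _ _ i hC.symm) h3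
  have G6 : ∀ x r₁ r₂ y, ReflTransGen Rel (st x r₁ r₂ y) (st x₀ a₀ b₀ (yy (C x r₁ r₂ y))) := by
    intro x r₁ r₂ y
    by_cases hg : gar x r₁ r₂
    · exact G5 _ _ _ _ hg
    · exact G4 _ _ _ _ hg
  refine ⟨cls, sub, ?_, ?_⟩
  · intro z j β hz
    obtain ⟨x, r₁, r₂, y, rfl⟩ := hst z
    obtain ⟨κ, h1, h2, hκ⟩ := hθ (j, β)
    obtain ⟨i, hi⟩ := hreach x r₁ r₂ κ (fun h => by
      apply hz
      rw [hcls, hCr, h, hκ]
      rintro (h' | h')
      · rw [h] at h'; exact h1 h'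
      · rw [h] at h'; exact h2 h')
    have hr : ¬ gar (flip x i) r₁ r₂ := by
      rintro (h | h)
      · rw [hi] at h; exact h1 h
      · rw [hi] at h; exact h2 h
    refine ⟨Sum.inl i, ?_, ?_⟩
    · rw [hfx, hcls, hCr _ _ _ _ hr, hi, hκ]
    · rw [hfx, hsub, hBr _ _ _ hr, hi, hκ]
  · intro z z' hzz
    obtain ⟨x, r₁, r₂, y, rfl⟩ := hst z
    obtain ⟨x', r₁', r₂', y', rfl⟩ := hst z'
    rw [hcls, hcls] at hzz
    have h1 := G6 x r₁ r₂ y
    have h2 := hsymm _ _ (G6 x' r₁' r₂' y')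
    rw [← hzz] at h2
    exact h1.trans h2

end Pool.Agent.H269C
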